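import Pool.Agent.Y260.MI.Star

/-!
Paths along which finitely many functions are far from their values at a distinguished homomorphism
(helper260; the case of one function and the contradiction argument is `AC.core`).
-/

set_option autoImplicit false

open MeasureTheory Set Metric Filter Topology

namespace Pool.Agent.Y260.MI

/-- smallness of the two integrals, for all small radii -/
theorem small (g : ℂ → ℂ) (hg : Integrable g) (ζ : ℂ) (ε : ℝ) (hε : 0 < ε) :
    ∃ r0 : ℝ, 0 < r0 ∧ ∀ ρ, 0 < ρ → ρ < r0 → ∫ z in ball ζ (8 * ρ), ‖g z‖ < ε ∧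
      ρ * ∫ z in (ball ζ (8 * ρ))ᶜ, ‖g z‖ / ‖z - ζ‖ < ε := by
  have hpos : ∀ᶠ ρ : ℝ in 𝓝[>] 0, 0 < ρ := eventually_mem_nhdsWithin
  have hrlim : Tendsto (fun ρ : ℝ => ρ) (𝓝[>] 0) (𝓝 0) := tendsto_id.mono_left nhdsWithin_le_nhds
  have h1 : Tendsto (fun ρ : ℝ => ∫ z in ball ζ (8 * ρ), ‖g z‖) (𝓝[>] 0) (𝓝 0) := by
    have e0 : 𝓝 (0:ℝ) = 𝓝 (∫ _z : ℂ, (0:ℝ)) := by simp
    rw [e0]
    simp_rw [← integral_indicator (measurableSet_ball (x := ζ) (ε := _))]
    refine tendsto_integral_filter_of_dominated_convergence (fun z => ‖g z‖) ?_ ?_ hg.norm ?_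
    · exact Eventually.of_forall fun n =>
        hg.norm.aestronglyMeasurable.indicator measurableSet_ball
    · refine Eventually.of_forall fun n => Eventually.of_forall fun z => ?_
      by_cases hz : z ∈ ball ζ (8 * n)
      · rw [indicator_of_mem hz, norm_norm]
      · rw [indicator_of_notMem hz]; simp
    · have hae : ∀ᵐ z : ℂ, z ≠ ζ := by
        have : volume ({ζ} : Set ℂ) = 0 := by simp
        exact measure_eq_zero_iff_ae_notMem.1 this |>.mono fun z hz => by simpa using hz
      refine hae.mono fun z hz => ?_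
      have hpos : 0 < dist z ζ := dist_pos.2 hz
      have h8 : Tendsto (fun ρ : ℝ => 8 * ρ) (𝓝[>] 0) (𝓝 0) := by simpa using hrlim.const_mul 8
      refine tendsto_const_nhds.congr' ?_
      filter_upwards [h8.eventually_lt_const hpos] with n hn
      rw [indicator_of_notMem]
      simp only [mem_ball, not_lt]
      exact hn.le
  have h2 : Tendsto (fun ρ : ℝ => ρ * ∫ z in (ball ζ (8 * ρ))ᶜ, ‖g z‖ / ‖z - ζ‖) (𝓝[>] 0)
      (𝓝 0) := by
    have e0 : 𝓝 (0:ℝ) = 𝓝 (∫ _z : ℂ, (0:ℝ)) := by simp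
    rw [e0]
    have heq : ∀ ρ : ℝ, ρ * ∫ z in (ball ζ (8 * ρ))ᶜ, ‖g z‖ / ‖z - ζ‖ =
        ∫ z, (ball ζ (8 * ρ))ᶜ.indicator (fun z => ρ * (‖g z‖ / ‖z - ζ‖)) z := by
      intro ρ
      rw [integral_indicator measurableSet_ball.compl, integral_const_mul]
    simp_rw [heq]
    refine tendsto_integral_filter_of_dominated_convergence (fun z => ‖g z‖) ?_ ?_ hg.norm ?_
    · refine Eventually.of_forall fun n => ?_
      refine AEStronglyMeasurable.indicator ?_ measurableSet_ball.compl
      refine AEStronglyMeasurable.const_mul ?_ _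
      have hm : Measurable fun z : ℂ => ‖z - ζ‖⁻¹ := by fun_prop
      simp_rw [div_eq_mul_inv]
      exact hg.norm.aestronglyMeasurable.mul hm.aestronglyMeasurable
    · filter_upwards [hpos] with n h0
      refine Eventually.of_forall fun z => ?_
      by_cases hz : z ∈ (ball ζ (8 * n))ᶜ
      · rw [indicator_of_mem hz]
        have hz' : 8 * n ≤ ‖z - ζ‖ := by simpa [dist_eq_norm] using hz
        have hzp : 0 < ‖z - ζ‖ := by linarith
        rw [Real.norm_of_nonneg (by positivity), mul_div_assoc', div_le_iff₀ hzp]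
        have : 0 ≤ ‖g z‖ := norm_nonneg _
        nlinarith
      · rw [indicator_of_notMem hz]; simp
    · refine Eventually.of_forall fun z => ?_
      have h3 : Tendsto (fun ρ : ℝ => ρ * (‖g z‖ / ‖z - ζ‖)) (𝓝[>] 0) (𝓝 0) := by
        simpa using hrlim.mul_const (‖g z‖ / ‖z - ζ‖)
      refine squeeze_zero_norm' ?_ h3
      filter_upwards [hpos] with n h0
      by_cases hz : z ∈ (ball ζ (8 * n))ᶜ
      · rw [indicator_of_mem hz, Real.norm_of_nonneg]
        positivity
      · rw [indicator_of_notMem hz]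
        simp only [norm_zero]
        positivity
  have h3 := (h1.eventually_lt_const hε).and (h2.eventually_lt_const hε)
  rw [eventually_nhdsWithin_iff, Metric.eventually_nhds_iff] at h3
  obtain ⟨r0, hr0, h4⟩ := h3
  refine ⟨r0, hr0, fun ρ h0 h5 => h4 ?_ h0⟩
  rw [Real.dist_eq, sub_zero, abs_of_pos h0]
  exact h5

/-- the key estimate -/
theorem key (ι : Type) [Fintype ι] : ∃ c : ℝ, 0 < c ∧
    ∀ (V : Set ℂ), IsOpen V → ∀ g : ℂ → ℂ, Integrable g → (∀ z ∉ V, g z = 0) →
    ∀ F : ι → ℂ → ℂ, (∀ i, ContinuousOn (F i) V) → ∀ M : ℝ, 0 < M → (∀ i, ∀ z ∈ V, ‖F i z‖ ≤ M) →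
    ∀ (ζ : ℂ) (η : ℝ), 0 < η →
    (∀ i, ∀ p ∈ V, Integrable (fun z => ‖g z‖ / ‖z - p‖) →
      - F i p = (ζ - p) * ((∫ z, F i z * g z / (z - p)) - F i p * ∫ z, g z / (z - p))) →
    ∀ ρ, 0 < ρ → ρ * ∫ z in (ball ζ (8 * ρ))ᶜ, ‖g z‖ / ‖z - ζ‖ <
        η / (24 * ((Fintype.card ι + 1) * M)) →
    ∀ (Γ : ℝ → ℂ) (a b : ℝ), a ≤ b → ContinuousOn Γ (Icc a b) →
    (∀ t ∈ Icc a b, (Γ t ∈ V ∧ η < ∑ i, ‖F i (Γ t)‖) ∧ Γ t ∈ ball ζ (3 * ρ)) →
    c * ‖Γ a - Γ b‖ ≤
      12 * ρ * ((Fintype.card ι + 1) * M) / η * ∫ z in ball ζ (8 * ρ), ‖g z‖ := by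
  obtain ⟨c, hc, hstar⟩ := starm (Option ι)
  refine ⟨c, hc, ?_⟩
  intro V hVo g hg hg0 F hF M hM0 hM ζ η hη hres ρ hρ hs2 Γ a b hab hΓ hΓN
  obtain ⟨W, hW⟩ : ∃ W : ℝ, W = (Fintype.card ι : ℝ) + 1 := ⟨_, rfl⟩
  have hW0 : 0 < W := by rw [hW]; positivity
  have hWc : (Fintype.card ι : ℝ) ≤ W := by rw [hW]; linarith
  rw [← hW] at hs2 ⊢
  have hFg : ∀ i, Integrable (fun z => F i z * g z) := by
    intro i
    have hmeas : AEStronglyMeasurable (fun z => F i z * g z) volume := by
      have h1 : AEStronglyMeasurable (fun z => F i z * g z) (volume.restrict V) :=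
        ((hF i).aestronglyMeasurable hVo.measurableSet).mul hg.aestronglyMeasurable.restrict
      have h2 : (fun z => F i z * g z) = V.indicator (fun z => F i z * g z) := by
        ext z
        by_cases hz : z ∈ V
        · rw [indicator_of_mem hz]
        · rw [indicator_of_notMem hz, hg0 z hz, mul_zero]
      rw [h2]
      exact (aestronglyMeasurable_indicator_iff hVo.measurableSet).2 h1
    refine Integrable.mono' (hg.norm.const_mul M) hmeas (Eventually.of_forall fun z => ?_)
    by_cases hz : z ∈ V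
    · rw [norm_mul]; gcongr; exact hM i z hz
    · rw [hg0 z hz]; simp
  have hFgn : ∀ i z, ‖F i z * g z‖ ≤ M * ‖g z‖ := by
    intro i z
    by_cases hz : z ∈ V
    · rw [norm_mul]; gcongr; exact hM i z hz
    · rw [hg0 z hz]; simp
  set B : Set ℂ := ball ζ (8 * ρ) with hB
  have hBm : MeasurableSet B := measurableSet_ball
  set s : ℝ := 6 * ρ / η with hs
  have hspos : 0 < s := by positivity
  set G : Option ι → ℂ → ℂ := fun o => o.elim
    (B.indicator (fun z => ((s * (W * M) : ℝ) : ℂ) * g z))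
    (fun i => B.indicator (fun z => (s : ℂ) * (F i z * g z))) with hG
  have hGi : ∀ o, Integrable (G o) := by
    intro o
    cases o with
    | none => exact (hg.const_mul _).indicator hBm
    | some i => exact ((hFg i).const_mul _).indicator hBm
  set N : Set ℂ := (V ∩ (fun z => ∑ i, ‖F i z‖) ⁻¹' {w | η < w}) ∩ ball ζ (3 * ρ) with hN
  have hNo : IsOpen N := by
    refine IsOpen.inter ?_ isOpen_ball
    have hcF : ContinuousOn (fun z => ∑ i, ‖F i z‖) V :=
      continuousOn_finsetSum _ fun i _ => (hF i).norm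
    exact hcF.isOpen_inter_preimage hVo (isOpen_lt continuous_const continuous_id)
  have hcond : ∀ p ∈ N, Integrable (fun z => (∑ o, ‖G o z‖) / ‖z - p‖) →
        1 ≤ ∑ o, ‖∫ z, G o z / (z - p)‖ := by
    intro p hp hint
    have hpV : p ∈ V := hp.1.1
    have hpη : η < ∑ i, ‖F i p‖ := hp.1.2
    have hpζ : ‖p - ζ‖ < 3 * ρ := by simpa [dist_eq_norm] using hp.2
    have hfar : ∀ z ∈ Bᶜ, ‖z - ζ‖ / 2 ≤ ‖z - p‖ ∧ 8 * ρ ≤ ‖z - ζ‖ := by
      intro z hz
      have hz' : 8 * ρ ≤ ‖z - ζ‖ := by simpa [hB, dist_eq_norm] using hz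
      have h3 : ‖z - ζ‖ ≤ ‖z - p‖ + ‖p - ζ‖ := by
        calc ‖z - ζ‖ = ‖(z - p) + (p - ζ)‖ := by ring_nf
          _ ≤ _ := norm_add_le _ _
      exact ⟨by linarith, hz'⟩
    have hminv : Measurable fun z : ℂ => ‖z - p‖⁻¹ := by fun_prop
    have hminv' : Measurable fun z : ℂ => (z - p)⁻¹ := by fun_prop
    have hminvζ : Measurable fun z : ℂ => ‖z - ζ‖⁻¹ := by fun_prop
    -- integrability on B
    have hiB : IntegrableOn (fun z => ‖g z‖ / ‖z - p‖) B := by
      have h4 : Integrable (fun z => (s * (W * M))⁻¹ * ((∑ o, ‖G o z‖) / ‖z - p‖)) :=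
        hint.const_mul _
      refine Integrable.mono' h4.integrableOn ?_ ?_
      · simp_rw [div_eq_mul_inv]
        exact (hg.norm.aestronglyMeasurable.mul hminv.aestronglyMeasurable).restrict
      · refine (ae_restrict_mem hBm).mono fun z hz => ?_
        rw [Real.norm_of_nonneg (by positivity)]
        have h5 : ‖G none z‖ = s * (W * M) * ‖g z‖ := by
          simp only [hG, Option.elim]
          rw [indicator_of_mem hz, norm_mul, Complex.norm_real, Real.norm_of_nonneg (by positivity)]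
        have h6 : ‖G none z‖ ≤ ∑ o, ‖G o z‖ :=
          Finset.single_le_sum (f := fun o => ‖G o z‖) (fun _ _ => norm_nonneg _)
            (Finset.mem_univ none)
        rw [h5] at h6
        calc ‖g z‖ / ‖z - p‖ = (s * (W * M))⁻¹ * ((s * (W * M) * ‖g z‖) / ‖z - p‖) := by
              field_simp
          _ ≤ (s * (W * M))⁻¹ * ((∑ o, ‖G o z‖) / ‖z - p‖) := by
              gcongr
    have hiζ : IntegrableOn (fun z => ‖g z‖ / ‖z - ζ‖) Bᶜ := by
      refine Integrable.mono' (hg.norm.const_mul (8 * ρ)⁻¹).integrableOn ?_ ?_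
      · simp_rw [div_eq_mul_inv]
        exact (hg.norm.aestronglyMeasurable.mul hminvζ.aestronglyMeasurable).restrict
      · refine (ae_restrict_mem hBm.compl).mono fun z hz => ?_
        rw [Real.norm_of_nonneg (by positivity), div_eq_mul_inv, mul_comm]
        gcongr
        exact (hfar z hz).2
    have hiBc : IntegrableOn (fun z => ‖g z‖ / ‖z - p‖) Bᶜ := by
      refine Integrable.mono' (hiζ.const_mul 2) ?_ ?_
      · simp_rw [div_eq_mul_inv]
        exact (hg.norm.aestronglyMeasurable.mul hminv.aestronglyMeasurable).restrict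
      · refine (ae_restrict_mem hBm.compl).mono fun z hz => ?_
        obtain ⟨h6, h7⟩ := hfar z hz
        rw [Real.norm_of_nonneg (by positivity)]
        have h8 : 0 < ‖z - ζ‖ / 2 := by linarith
        calc ‖g z‖ / ‖z - p‖ ≤ ‖g z‖ / (‖z - ζ‖ / 2) := by gcongr
          _ = 2 * (‖g z‖ / ‖z - ζ‖) := by field_simp
    have hi : Integrable (fun z => ‖g z‖ / ‖z - p‖) := by
      rw [← integrableOn_univ, ← union_compl_self B]
      exact hiB.union hiBc
    -- complex integrability
    have hcg : Integrable (fun z => g z / (z - p)) := by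
      refine Integrable.mono' hi ?_ (Eventually.of_forall fun z => by rw [norm_div])
      simp_rw [div_eq_mul_inv]
      exact hg.aestronglyMeasurable.mul hminv'.aestronglyMeasurable
    have hcFg : ∀ i, Integrable (fun z => F i z * g z / (z - p)) := by
      intro i
      refine Integrable.mono' (hi.const_mul M) ?_ (Eventually.of_forall fun z => ?_)
      · simp_rw [div_eq_mul_inv]
        exact (hFg i).aestronglyMeasurable.mul hminv'.aestronglyMeasurable
      · rw [norm_div, ← mul_div_assoc]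
        gcongr
        exact hFgn i z
    set Ω : ℝ := ∫ z in Bᶜ, ‖g z‖ / ‖z - ζ‖ with hΩ
    have hfar1 : ‖∫ z in Bᶜ, g z / (z - p)‖ ≤ 2 * Ω := by
      calc ‖∫ z in Bᶜ, g z / (z - p)‖ ≤ ∫ z in Bᶜ, ‖g z / (z - p)‖ := norm_integral_le_integral_norm _
        _ ≤ ∫ z in Bᶜ, 2 * (‖g z‖ / ‖z - ζ‖) := by
            refine setIntegral_mono_on hcg.norm.integrableOn (hiζ.const_mul 2) hBm.compl ?_
            intro z hz
            obtain ⟨h6, h7⟩ := hfar z hz
            have h8 : 0 < ‖z - ζ‖ / 2 := by linarith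
            rw [norm_div]
            calc ‖g z‖ / ‖z - p‖ ≤ ‖g z‖ / (‖z - ζ‖ / 2) := by gcongr
              _ = 2 * (‖g z‖ / ‖z - ζ‖) := by field_simp
        _ = 2 * Ω := by rw [integral_const_mul]
    have hfar2 : ∀ i, ‖∫ z in Bᶜ, F i z * g z / (z - p)‖ ≤ 2 * M * Ω := by
      intro i
      calc ‖∫ z in Bᶜ, F i z * g z / (z - p)‖ ≤ ∫ z in Bᶜ, ‖F i z * g z / (z - p)‖ :=
            norm_integral_le_integral_norm _
        _ ≤ ∫ z in Bᶜ, 2 * M * (‖g z‖ / ‖z - ζ‖) := by
            refine setIntegral_mono_on (hcFg i).norm.integrableOn (hiζ.const_mul (2 * M))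
              hBm.compl ?_
            intro z hz
            obtain ⟨h6, h7⟩ := hfar z hz
            have h8 : 0 < ‖z - ζ‖ / 2 := by linarith
            rw [norm_div]
            calc ‖F i z * g z‖ / ‖z - p‖ ≤ (M * ‖g z‖) / (‖z - ζ‖ / 2) := by
                  gcongr; exact hFgn i z
              _ = 2 * M * (‖g z‖ / ‖z - ζ‖) := by field_simp
        _ = 2 * M * Ω := by rw [integral_const_mul]
    have e1 : ∀ i, ∫ z, G (some i) z / (z - p) = s * ∫ z in B, F i z * g z / (z - p) := by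
      intro i
      rw [← integral_const_mul, ← integral_indicator hBm]
      congr 1
      ext z
      by_cases hz : z ∈ B
      · simp only [hG, Option.elim]
        rw [indicator_of_mem hz, indicator_of_mem hz]; ring
      · simp only [hG, Option.elim]
        rw [indicator_of_notMem hz, indicator_of_notMem hz, zero_div]
    have e2 : ∫ z, G none z / (z - p) = ((s * (W * M) : ℝ) : ℂ) * ∫ z in B, g z / (z - p) := by
      rw [← integral_const_mul, ← integral_indicator hBm]
      congr 1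
      ext z
      by_cases hz : z ∈ B
      · simp only [hG, Option.elim]
        rw [indicator_of_mem hz, indicator_of_mem hz]; ring
      · simp only [hG, Option.elim]
        rw [indicator_of_notMem hz, indicator_of_notMem hz, zero_div]
    have s1 : ∀ i, ∫ z, F i z * g z / (z - p) = (∫ z in B, F i z * g z / (z - p)) +
        ∫ z in Bᶜ, F i z * g z / (z - p) := fun i => (integral_add_compl hBm (hcFg i)).symm
    have s2 : ∫ z, g z / (z - p) = (∫ z in B, g z / (z - p)) +
        ∫ z in Bᶜ, g z / (z - p) := (integral_add_compl hBm hcg).symm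
    obtain ⟨I1, hI1⟩ : ∃ I1 : ι → ℂ, ∀ i, I1 i = ∫ z in B, F i z * g z / (z - p) :=
      ⟨_, fun _ => rfl⟩
    set I2 := ∫ z in B, g z / (z - p) with hI2
    have hΩ0 : 0 ≤ Ω := by
      rw [hΩ]
      exact integral_nonneg fun z => by positivity
    have hmain1 : ∀ i, ‖F i p‖ ≤ 3 * ρ * (‖I1 i‖ + (M * ‖I2‖ + 4 * M * Ω)) := by
      intro i
      have hMp := hM i p hpV
      have hres' := hres i p hpV hi
      calc ‖F i p‖ = ‖(ζ - p) * ((∫ z, F i z * g z / (z - p)) - F i p * ∫ z, g z / (z - p))‖ := by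
            rw [← hres', norm_neg]
        _ ≤ (3 * ρ) * (‖I1 i‖ + (M * ‖I2‖ + 4 * M * Ω)) := by
            rw [norm_mul, norm_sub_rev]
            gcongr
            rw [s1 i, s2, ← hI1]
            have hf2 := hfar2 i
            calc ‖I1 i + (∫ z in Bᶜ, F i z * g z / (z - p)) - F i p * (I2 + ∫ z in Bᶜ, g z / (z - p))‖
                ≤ ‖I1 i + (∫ z in Bᶜ, F i z * g z / (z - p))‖ +
                  ‖F i p * (I2 + ∫ z in Bᶜ, g z / (z - p))‖ := norm_sub_le _ _
              _ ≤ (‖I1 i‖ + 2 * M * Ω) + M * (‖I2‖ + 2 * Ω) := by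
                  rw [norm_mul]
                  gcongr
                  · exact (norm_add_le _ _).trans (by gcongr)
                  · exact (norm_add_le _ _).trans (by gcongr)
              _ = ‖I1 i‖ + (M * ‖I2‖ + 4 * M * Ω) := by ring
    have hmain : η < 3 * ρ * (∑ i, ‖I1 i‖ + W * (M * ‖I2‖ + 4 * M * Ω)) := by
      refine hpη.trans_le ?_
      refine (Finset.sum_le_sum fun i _ => hmain1 i).trans ?_
      rw [← Finset.mul_sum, Finset.sum_add_distrib, Finset.sum_const, Finset.card_univ,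
        nsmul_eq_mul]
      have h0 : 0 ≤ M * ‖I2‖ + 4 * M * Ω := by positivity
      gcongr
    have hΩs : ρ * Ω < η / (24 * (W * M)) := hs2
    rw [lt_div_iff₀ (by positivity)] at hΩs
    have h9 : η / 2 < 3 * ρ * (∑ i, ‖I1 i‖ + W * M * ‖I2‖) := by nlinarith
    rw [Fintype.sum_option, e2, norm_mul, Complex.norm_real, Real.norm_of_nonneg (by positivity)]
    have e3 : ∑ i, ‖∫ z, G (some i) z / (z - p)‖ = s * ∑ i, ‖I1 i‖ := by
      rw [Finset.mul_sum]
      refine Finset.sum_congr rfl fun i _ => ?_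
      rw [e1, norm_mul, Complex.norm_real, Real.norm_of_nonneg hspos.le, hI1]
    rw [e3]
    have h10 : s * (W * M) * ‖I2‖ + s * ∑ i, ‖I1 i‖ =
        (3 * ρ * (∑ i, ‖I1 i‖ + W * M * ‖I2‖)) / (η / 2) := by
      rw [hs]; field_simp; ring
    rw [h10, le_div_iff₀ (by positivity)]
    linarith
  have hfin := hstar G hGi N hNo hcond Γ a b hab hΓ hΓN
  have hI0 : 0 ≤ ∫ z in B, ‖g z‖ := integral_nonneg fun z => norm_nonneg _
  have n1 : ∀ i, ∫ z, ‖G (some i) z‖ ≤ s * M * ∫ z in B, ‖g z‖ := by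
    intro i
    rw [← integral_const_mul, ← integral_indicator hBm]
    refine integral_mono (hGi _).norm ((hg.norm.const_mul _).indicator hBm) ?_
    intro z
    by_cases hz : z ∈ B
    · simp only [hG, Option.elim]
      rw [indicator_of_mem hz, indicator_of_mem hz, norm_mul, Complex.norm_real,
        Real.norm_of_nonneg hspos.le, mul_assoc]
      gcongr
      exact hFgn i z
    · simp only [hG, Option.elim]
      rw [indicator_of_notMem hz, indicator_of_notMem hz, norm_zero]
  have n2 : ∫ z, ‖G none z‖ ≤ s * (W * M) * ∫ z in B, ‖g z‖ := by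
    rw [← integral_const_mul, ← integral_indicator hBm]
    refine integral_mono (hGi _).norm ((hg.norm.const_mul _).indicator hBm) ?_
    intro z
    by_cases hz : z ∈ B
    · simp only [hG, Option.elim]
      rw [indicator_of_mem hz, indicator_of_mem hz, norm_mul, Complex.norm_real,
        Real.norm_of_nonneg (by positivity)]
    · simp only [hG, Option.elim]
      rw [indicator_of_notMem hz, indicator_of_notMem hz, norm_zero]
  refine hfin.trans ?_
  rw [Fintype.sum_option]
  have n3 : ∑ i, ∫ z, ‖G (some i) z‖ ≤ W * (s * M * ∫ z in B, ‖g z‖) := by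
    refine (Finset.sum_le_sum fun i _ => n1 i).trans ?_
    rw [Finset.sum_const, Finset.card_univ, nsmul_eq_mul]
    gcongr
  have h12 : 12 * ρ * (W * M) / η * ∫ z in B, ‖g z‖ = s * (W * M) * (∫ z in B, ‖g z‖) +
      W * (s * M * ∫ z in B, ‖g z‖) := by
    rw [hs]; field_simp; ring
  rw [h12]
  exact add_le_add n2 n3

/-- two points of a preconnected subset of an open set are joined by a path in the open set -/
theorem joined (N K : Set ℂ) (hN : IsOpen N) (hK : IsPreconnected K) (hKN : K ⊆ N) (x y : ℂ)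
    (hx : x ∈ K) (hy : y ∈ K) :
    ∃ Γ : ℝ → ℂ, ContinuousOn Γ (Icc 0 1) ∧ (∀ t ∈ Icc (0 : ℝ) 1, Γ t ∈ N) ∧ Γ 0 = x ∧ Γ 1 = y := by
  have hC : IsOpen (connectedComponentIn N x) := hN.connectedComponentIn
  have hconn : IsConnected (connectedComponentIn N x) :=
    isConnected_connectedComponentIn_iff.2 (hKN hx)
  have hpc := (hC.isConnected_iff_isPathConnected).1 hconn
  have hyC : y ∈ connectedComponentIn N x := hK.subset_connectedComponentIn hx hKN hy
  have hxC : x ∈ connectedComponentIn N x := mem_connectedComponentIn (hKN hx)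
  obtain ⟨γ, hγ⟩ := hpc.joinedIn x hxC y hyC
  refine ⟨fun t => γ.extend t, γ.continuous_extend.continuousOn, ?_, ?_, ?_⟩
  · intro t ht
    have : γ.extend t = γ ⟨t, ht⟩ := γ.extend_apply ht
    show γ.extend t ∈ N
    rw [this]
    exact connectedComponentIn_subset N x (hγ _)
  · exact γ.extend_zero
  · exact γ.extend_one

/-- a preconnected set that comes close to `ζ` and leaves a disc reaches far in a component -/
theorem reach (N E : Set ℂ) (hN : IsOpen N) (hE : IsPreconnected E) (ζ : ℂ) (ρ : ℝ) (hρ : 0 < ρ)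
    (hEN : ∀ z ∈ E, ‖z - ζ‖ < 3 * ρ → z ∈ N) (x x0 : ℂ) (hx : x ∈ E) (hx0 : x0 ∈ E)
    (hxρ : ‖x - ζ‖ < ρ) (hx0ρ : 2 * ρ < ‖x0 - ζ‖) :
    ∃ Γ : ℝ → ℂ, ContinuousOn Γ (Icc 0 1) ∧ (∀ t ∈ Icc (0 : ℝ) 1, Γ t ∈ N) ∧
      ρ < ‖Γ 0 - Γ 1‖ := by
  have hxN : x ∈ N := hEN x hx (by linarith)
  obtain ⟨C, hCd⟩ : ∃ C, C = connectedComponentIn N x := ⟨_, rfl⟩
  have hC : IsOpen C := by rw [hCd]; exact hN.connectedComponentIn
  have hxC : x ∈ C := by rw [hCd]; exact mem_connectedComponentIn hxN
  have hCc : IsPreconnected C := by rw [hCd]; exact isPreconnected_connectedComponentIn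
  have hCN : C ⊆ N := by rw [hCd]; exact connectedComponentIn_subset N x
  have hex : ∃ y ∈ C, 2 * ρ < ‖y - ζ‖ := by
    by_contra hcon
    push Not at hcon
    have hcl : ∀ z ∈ closure C, ‖z - ζ‖ ≤ 2 * ρ := by
      intro z hz
      have h1 : closure C ⊆ {z : ℂ | ‖z - ζ‖ ≤ 2 * ρ} :=
        closure_minimal hcon (isClosed_le (by fun_prop) continuous_const)
      exact h1 hz
    have hcl2 : ∀ z ∈ N, z ∈ closure C → z ∈ C := by
      intro z hzN hz
      have hC' : IsOpen (connectedComponentIn N z) := hN.connectedComponentIn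
      obtain ⟨w, hw1, hw2⟩ := mem_closure_iff.1 hz _ hC' (mem_connectedComponentIn hzN)
      rw [hCd] at hw2
      have e1 := connectedComponentIn_eq hw1
      have e2 := connectedComponentIn_eq hw2
      rw [hCd, e2, ← e1]
      exact mem_connectedComponentIn hzN
    have hsub : E ⊆ C ∪ (closure C)ᶜ := by
      intro z hz
      by_cases h : z ∈ closure C
      · left
        exact hcl2 z (hEN z hz (by linarith [hcl z h])) h
      · right
        exact h
    have hdis : Disjoint C (closure C)ᶜ :=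
      disjoint_compl_right_iff_subset.2 subset_closure
    have hEC := hE.subset_left_of_subset_union hC isClosed_closure.isOpen_compl hdis hsub
      ⟨x, hx, hxC⟩
    have := hcon x0 (hEC hx0)
    linarith
  obtain ⟨y, hyC, hy⟩ := hex
  obtain ⟨Γ, h1, h2, h3, h4⟩ := joined N C hN hCc hCN x y hxC hyC
  refine ⟨Γ, h1, h2, ?_⟩
  rw [h3, h4]
  have h5 : ‖y - ζ‖ ≤ ‖x - y‖ + ‖x - ζ‖ := by
    calc ‖y - ζ‖ = ‖(x - ζ) - (x - y)‖ := by ring_nf
      _ ≤ ‖x - ζ‖ + ‖x - y‖ := norm_sub_le _ _
      _ = _ := add_comm _ _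
  linarith

end Pool.Agent.Y260.MI
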