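import Pool.Agent.Helper303.AcS

/-!
The key estimate for paths, for finite families of functions (helper260; the case of two functions
is `AC.star2`).
-/

set_option autoImplicit false

open MeasureTheory Set Metric

namespace Pool.Agent.Y260.MI

open AC

variable {ι : Type} [Fintype ι]

/-- the family of measures -/
noncomputable def fam (K : ℝ) (G : ι → ℂ → ℂ) : ι × Fin 4 → Measure ℂ :=
  fun k => dens K k.2 (G k.1)

lemma sum_fam (F : Measure ℂ → ℝ) (K : ℝ) (G : ι → ℂ → ℂ) :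
    ∑ k, F (fam K G k) = ∑ i, ∑ e, F (dens K e (G i)) := by
  rw [Fintype.sum_prod_type]
  rfl

lemma cond_fam {G : ι → ℂ → ℂ} (h : ∀ i, Integrable (G i)) {δ : ℝ} (hδ : 0 < δ)
    {q p : ℂ} (hp : p ∈ ball q δ)
    (hint : Integrable (fun z => (∑ i, ‖G i z‖) / ‖z - p‖))
    (hle : ∫ z in ball p (4 * δ), (∑ i, ‖G i z‖) / ‖z - p‖ ≤
      3 / δ * ∫ z in ball q (5 * δ), (∑ i, ‖G i z‖))
    (hone : 1 ≤ ∑ i, ‖∫ z, G i z / (z - p)‖) :
    cond (fam 24 G) (4 * δ) p := by
  have hi : ∀ i, Integrable (fun z => G i z / (z - p)) := by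
    intro i
    refine hint.mono' ?_ ?_
    · exact ((h i).1.mul
        (Measurable.aestronglyMeasurable (f := fun z : ℂ => (z - p)⁻¹) (by fun_prop)))
    · filter_upwards with z
      rw [norm_div]
      refine div_le_div_of_nonneg_right ?_ (norm_nonneg _)
      exact Finset.single_le_sum (f := fun i => ‖G i z‖) (fun _ _ => norm_nonneg _)
        (Finset.mem_univ i)
  have hA : MeasurableSet {z : ℂ | 4 * δ ≤ ‖z - p‖} := measA _ _
  have hAc : {z : ℂ | 4 * δ ≤ ‖z - p‖}ᶜ = ball p (4 * δ) := by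
    ext z
    simp [dist_eq_norm]
  have hsplit : ∀ i, ‖∫ z, G i z / (z - p)‖ ≤
      ‖∫ z in {z : ℂ | 4 * δ ≤ ‖z - p‖}, G i z / (z - p)‖ +
        ∫ z in ball p (4 * δ), ‖G i z‖ / ‖z - p‖ := by
    intro i
    rw [← integral_add_compl hA (hi i), hAc]
    refine (norm_add_le _ _).trans (add_le_add le_rfl ?_)
    refine (norm_integral_le_integral_norm _).trans (le_of_eq ?_)
    refine integral_congr_ae ?_
    filter_upwards with z
    rw [norm_div]
  have hn : ∀ i, IntegrableOn (fun z => ‖G i z‖ / ‖z - p‖) (ball p (4 * δ)) := by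
    intro i
    have := (hi i).norm.integrableOn (s := ball p (4 * δ))
    simpa only [norm_div] using this
  have hsum : ∑ i, ∫ z in ball p (4 * δ), ‖G i z‖ / ‖z - p‖ =
      ∫ z in ball p (4 * δ), (∑ i, ‖G i z‖) / ‖z - p‖ := by
    rw [← integral_finsetSum _ (fun i _ => hn i)]
    refine integral_congr_ae ?_
    filter_upwards with z
    rw [Finset.sum_div]
  have hf : ∀ i, 24 * ‖∫ z in {z : ℂ | 4 * δ ≤ ‖z - p‖}, G i z / (z - p)‖ ≤
      ∑ e, ‖far (dens 24 e (G i)) (4 * δ) p‖ :=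
    fun i => L1 (h i) (K := 24) (by norm_num) (r := 4 * δ) (by linarith) p
  have hS1 := Finset.sum_le_sum fun i (_ : i ∈ Finset.univ) => hsplit i
  rw [Finset.sum_add_distrib, hsum] at hS1
  have hS2 := Finset.sum_le_sum fun i (_ : i ∈ Finset.univ) => hf i
  rw [← Finset.mul_sum] at hS2
  by_cases hcase : ∫ z in ball p (4 * δ), (∑ i, ‖G i z‖) / ‖z - p‖ ≤ 1 / 2
  · left
    rw [sfar, sum_fam (fun g => ‖far g (4 * δ) p‖)]
    linarith
  · right
    rw [bmass, sum_fam (fun g => g.real (closedBall p (4 * (4 * δ))))]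
    have hl : ∀ i, 24 * ∫ z in closedBall p (4 * (4 * δ)), ‖G i z‖ ≤
        ∑ e, (dens 24 e (G i)).real (closedBall p (4 * (4 * δ))) :=
      fun i => L3 (h i) (K := 24) (by norm_num) (S := closedBall p (4 * (4 * δ)))
        measurableSet_closedBall
    have hS3 := Finset.sum_le_sum fun i (_ : i ∈ Finset.univ) => hl i
    rw [← Finset.mul_sum] at hS3
    have hsub : ball q (5 * δ) ⊆ closedBall p (4 * (4 * δ)) := by
      intro z hz
      rw [mem_ball] at hz hp
      rw [mem_closedBall]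
      have := dist_triangle z q p
      rw [dist_comm q p] at this
      linarith
    have hsI : Integrable (fun z => ∑ i, ‖G i z‖) :=
      integrable_finsetSum _ fun i _ => (h i).norm
    have hmono : ∫ z in ball q (5 * δ), (∑ i, ‖G i z‖) ≤
        ∫ z in closedBall p (4 * (4 * δ)), (∑ i, ‖G i z‖) := by
      refine setIntegral_mono_set hsI.integrableOn ?_ hsub.eventuallyLE
      filter_upwards with z
      exact Finset.sum_nonneg fun _ _ => norm_nonneg _
    have hadd : ∫ z in closedBall p (4 * (4 * δ)), (∑ i, ‖G i z‖) =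
        ∑ i, ∫ z in closedBall p (4 * (4 * δ)), ‖G i z‖ :=
      integral_finsetSum _ fun i _ => (h i).norm.integrableOn
    push Not at hcase
    have hgt : 1 / 2 < 3 / δ * ∫ z in ball q (5 * δ), (∑ i, ‖G i z‖) := lt_of_lt_of_le hcase hle
    have hgt2 : δ / 6 < ∫ z in ball q (5 * δ), (∑ i, ‖G i z‖) := by
      have h6 : 1 / 2 * (δ / 3) < (3 / δ * ∫ z in ball q (5 * δ), (∑ i, ‖G i z‖)) * (δ / 3) :=
        mul_lt_mul_of_pos_right hgt (by linarith)
      have h7 : (3 / δ * ∫ z in ball q (5 * δ), (∑ i, ‖G i z‖)) * (δ / 3) =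
          ∫ z in ball q (5 * δ), (∑ i, ‖G i z‖) := by
        field_simp
      rw [h7] at h6
      linarith
    linarith

theorem starm (ι : Type) [Fintype ι] :
    ∃ c : ℝ, 0 < c ∧ ∀ G : ι → ℂ → ℂ, (∀ i, Integrable (G i)) → ∀ (N : Set ℂ), IsOpen N →
      (∀ p ∈ N, Integrable (fun z => (∑ i, ‖G i z‖) / ‖z - p‖) →
        1 ≤ ∑ i, ‖∫ z, G i z / (z - p)‖) →
      ∀ (γ : ℝ → ℂ) (a b : ℝ), a ≤ b → ContinuousOn γ (Icc a b) → (∀ t ∈ Icc a b, γ t ∈ N) →
      c * ‖γ a - γ b‖ ≤ ∑ i, ∫ z, ‖G i z‖ := by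
  obtain ⟨c0, hc0, hstar⟩ := star (ι × Fin 4)
  refine ⟨c0 / 96, by positivity, ?_⟩
  intro G h1 N hN hone γ a b hab hγ hγN
  have hnn : 0 ≤ ∑ i, ∫ z, ‖G i z‖ :=
    Finset.sum_nonneg fun i _ => integral_nonneg fun z => norm_nonneg _
  by_cases hD : ‖γ a - γ b‖ = 0
  · rw [hD, mul_zero]; exact hnn
  have hDpos : 0 < ‖γ a - γ b‖ := lt_of_le_of_ne (norm_nonneg _) (Ne.symm hD)
  have hcpt : IsCompact (γ '' Icc a b) := isCompact_Icc.image_of_continuousOn hγ
  obtain ⟨h, hh, hthick⟩ := hcpt.exists_thickening_subset_open hN (by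
    rintro _ ⟨t, ht, rfl⟩
    exact hγN t ht)
  obtain ⟨δ, hδ, hδh, hδD⟩ : ∃ δ : ℝ, 0 < δ ∧ δ ≤ h ∧ δ ≤ ‖γ a - γ b‖ / 4 :=
    ⟨min h (‖γ a - γ b‖ / 4), lt_min hh (by linarith), min_le_left _ _, min_le_right _ _⟩
  have huc := isCompact_Icc.uniformContinuousOn_of_continuous hγ
  rw [Metric.uniformContinuousOn_iff] at huc
  obtain ⟨η, hη, hucη⟩ := huc δ hδ
  obtain ⟨n, hn⟩ := exists_nat_gt ((b - a) / η)
  set M : ℝ := (n : ℝ) + 1 with hM
  have hMpos : 0 < M := by positivity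
  let t : ℕ → ℝ := fun i => a + i * ((b - a) / M)
  have ht0 : t 0 = a := by simp [t]
  have htn : t (n + 1) = b := by
    simp only [t]
    push_cast
    rw [← hM]
    field_simp
    ring
  have hstep0 : 0 ≤ (b - a) / M := div_nonneg (by linarith) hMpos.le
  have htmem : ∀ i ≤ n + 1, t i ∈ Icc a b := by
    intro i hi
    constructor
    · simp only [t]
      have : 0 ≤ (i : ℝ) * ((b - a) / M) := by positivity
      linarith
    · rw [← htn]
      simp only [t]
      have : (i : ℝ) ≤ ((n + 1 : ℕ) : ℝ) := by exact_mod_cast hi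
      have := mul_le_mul_of_nonneg_right this hstep0
      linarith
  have htstep : ∀ i, dist (t (i + 1)) (t i) < η := by
    intro i
    rw [Real.dist_eq]
    have : t (i + 1) - t i = (b - a) / M := by
      simp only [t]; push_cast; ring
    rw [this, abs_of_nonneg hstep0, div_lt_iff₀ hMpos]
    rw [div_lt_iff₀ hη] at hn
    nlinarith
  have hm : Integrable (fun z => ∑ i, ‖G i z‖) := integrable_finsetSum _ fun i _ => (h1 i).norm
  have hgp := fun i : ℕ => good_point (fun z => ∑ i, ‖G i z‖) hm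
    (fun z => Finset.sum_nonneg fun _ _ => norm_nonneg _) (γ (t i)) δ hδ
  choose p hpb hpi hple using hgp
  have hpN : ∀ i ≤ n + 1, p i ∈ N := by
    intro i hi
    apply hthick
    rw [mem_thickening_iff]
    refine ⟨γ (t i), ⟨t i, htmem i hi, rfl⟩, ?_⟩
    have := hpb i
    rw [mem_ball] at this
    linarith
  have hcond : ∀ i ≤ n + 1, cond (fam 24 G) (4 * δ) (p i) := by
    intro i hi
    exact cond_fam h1 hδ (hpb i) (hpi i) (hple i) (hone _ (hpN i hi) (hpi i))
  have hstep : ∀ i < n + 1, ‖p (i + 1) - p i‖ ≤ 4 * δ := by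
    intro i hi
    have e1 := hpb i
    have e2 := hpb (i + 1)
    rw [mem_ball] at e1 e2
    have e3 := hucη (t (i + 1)) (htmem _ (by omega)) (t i) (htmem _ (by omega)) (htstep i)
    rw [← dist_eq_norm]
    have e4 := dist_triangle4 (p (i + 1)) (γ (t (i + 1))) (γ (t i)) (p i)
    rw [dist_comm (γ (t i)) (p i)] at e4
    linarith
  have hfin : ∀ k, IsFiniteMeasure (fam 24 G k) := fun k => dens_fin (h1 k.1) 24 k.2
  have hmain := hstar (fam 24 G) hfin (4 * δ) (by linarith) (n + 1) p hstep hcond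
  have hmass : mass (fam 24 G) ≤ 48 * ∑ i, ∫ z, ‖G i z‖ := by
    rw [mass, sum_fam (fun g => g.real univ), Finset.mul_sum]
    refine Finset.sum_le_sum fun i _ => ?_
    have e1 := L2 (h1 i) (K := 24) (by norm_num)
    linarith
  have hdist : ‖γ a - γ b‖ / 2 ≤ ‖p (n + 1) - p 0‖ := by
    have e1 := hpb 0
    have e2 := hpb (n + 1)
    rw [ht0] at e1
    rw [htn] at e2
    rw [mem_ball] at e1 e2
    rw [← dist_eq_norm, ← dist_eq_norm] at *
    have e4 := dist_triangle4 (γ a) (p 0) (p (n + 1)) (γ b)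
    rw [dist_comm (γ a) (p 0), dist_comm (p 0) (p (n + 1))] at e4
    linarith
  have e5 : c0 * (‖γ a - γ b‖ / 2) ≤ 48 * ∑ i, ∫ z, ‖G i z‖ :=
    ((mul_le_mul_of_nonneg_left hdist hc0.le).trans hmain).trans hmass
  linarith

end Pool.Agent.Y260.MI
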